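import Pool.Agent.N658.TP.Stm

/-! # TP/Mix: from `Reach` to a mixture of PEPS -/

open scoped BigOperators ComplexConjugate Classical InnerProductSpace

set_option linter.unusedSectionVars false

noncomputable section

namespace Pool.Agent.N645.TP

open Pool.Agent.Y738.PE Pool.Agent.N658.TP

theorem box_put {d L r : ℕ} [NeZero L] (hrL : r ≤ L) (s : Conf d L) (v : Site L) (τ : BConf d r) :
    box r (put s v τ) v = τ := by
  funext p
  unfold box put
  have h1 : (v.1 + ((p.1 : ℕ) : ZMod L) - v.1).val = (p.1 : ℕ) := by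
    rw [add_sub_cancel_left, ZMod.val_natCast, Nat.mod_eq_of_lt (lt_of_lt_of_le p.1.2 hrL)]
  have h2 : (v.2 + ((p.2 : ℕ) : ZMod L) - v.2).val = (p.2 : ℕ) := by
    rw [add_sub_cancel_left, ZMod.val_natCast, Nat.mod_eq_of_lt (lt_of_lt_of_le p.2.2 hrL)]
  have h3 : (v.1 + ((p.1 : ℕ) : ZMod L) - v.1).val < r ∧
      (v.2 + ((p.2 : ℕ) : ZMod L) - v.2).val < r := by
    rw [h1, h2]
    exact ⟨p.1.2, p.2.2⟩
  rw [dif_pos h3]
  congr 1
  exact Prod.ext (Fin.ext h1) (Fin.ext h2)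

theorem put_put_box {d L r : ℕ} [NeZero L] (s : Conf d L) (v : Site L) (τ : BConf d r) :
    put (put s v τ) v (box r s v) = s := by
  funext w
  by_cases h : (w.1 - v.1).val < r ∧ (w.2 - v.2).val < r
  · unfold put
    rw [dif_pos h]
    unfold box
    congr 1
    refine Prod.ext ?_ ?_
    · show v.1 + (((w.1 - v.1).val : ℕ) : ZMod L) = w.1
      rw [ZMod.natCast_zmod_val]
      ring
    · show v.2 + (((w.2 - v.2).val : ℕ) : ZMod L) = w.2
      rw [ZMod.natCast_zmod_val]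
      ring
  · unfold put
    rw [dif_neg h, dif_neg h]

/-- the involution `(s, τ) ↦ (put s v τ, box s)` -/
def inv {d L r : ℕ} [NeZero L] (hrL : r ≤ L) (v : Site L) :
    Conf d L × BConf d r ≃ Conf d L × BConf d r where
  toFun x := (put x.1 v x.2, box r x.1 v)
  invFun x := (put x.1 v x.2, box r x.1 v)
  left_inv _ := Prod.ext (put_put_box _ _ _) (box_put hrL _ _ _)
  right_inv _ := Prod.ext (put_put_box _ _ _) (box_put hrL _ _ _)

theorem expec_real {d L r : ℕ} [NeZero L] (hrL : r ≤ L) (φ : Conf d L → ℂ) (v : Site L)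
    (B : BConf d r → BConf d r → ℂ) (hB : Herm B) : (expec φ v B).im = 0 := by
  have h : conj (expec φ v B) = expec φ v B := by
    unfold expec
    rw [← Fintype.sum_prod_type', map_sum]
    refine Fintype.sum_equiv (inv hrL v) _ _ fun x => ?_
    show conj (conj (φ x.1) * B (box r x.1 v) x.2 * φ (put x.1 v x.2)) =
      conj (φ (put x.1 v x.2)) * B (box r (put x.1 v x.2) v) (box r x.1 v) *
        φ (put (put x.1 v x.2) v (box r x.1 v))
    rw [box_put hrL, put_put_box, map_mul, map_mul, Complex.conj_conj, hB (box r x.1 v) x.2]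
    ring
  exact Complex.conj_eq_iff_im.1 h

/-- the expectation as a linear functional -/
def exL {d L r : ℕ} [NeZero L] (φ : Conf d L → ℂ) (v : Site L) :
    (BConf d r → BConf d r → ℂ) →ₗ[ℂ] ℂ where
  toFun B := expec φ v B
  map_add' B B' := by
    unfold expec
    rw [← Finset.sum_add_distrib]
    refine Finset.sum_congr rfl fun s _ => ?_
    rw [← Finset.sum_add_distrib]
    refine Finset.sum_congr rfl fun τ _ => ?_
    simp only [Pi.add_apply]
    ring
  map_smul' c B := by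
    unfold expec
    rw [RingHom.id_apply, smul_eq_mul, Finset.mul_sum]
    refine Finset.sum_congr rfl fun s _ => ?_
    rw [Finset.mul_sum]
    refine Finset.sum_congr rfl fun τ _ => ?_
    simp only [Pi.smul_apply, smul_eq_mul]
    ring

/-- the total expectation as a linear functional -/
def enL {d m r : ℕ} [NeZero m] (φ : Conf d m → ℂ) : (BConf d r → BConf d r → ℂ) →ₗ[ℂ] ℂ :=
  ∑ u : Site m, exL φ u

theorem enL_apply {d m r : ℕ} [NeZero m] (φ : Conf d m → ℂ) (B : BConf d r → BConf d r → ℂ) :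
    enL φ B = enS φ B := by
  unfold enL enS
  rw [LinearMap.sum_apply]
  rfl

theorem enS_real {d m r : ℕ} [NeZero m] (hrm : r ≤ m) (φ : Conf d m → ℂ)
    (B : BConf d r → BConf d r → ℂ) (hB : Herm B) : (enS φ B).im = 0 := by
  unfold enS
  rw [Complex.im_sum]
  exact Finset.sum_eq_zero fun u _ => expec_real hrm φ u B hB

section hm

variable {S : Type} [Fintype S]

/-- Hermitian matrices parametrised by real vectors -/
def hm : EuclideanSpace ℝ (S × S) →ₗ[ℝ] (S → S → ℂ) where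
  toFun b := fun s t => ((b (s, t) + b (t, s) : ℝ) : ℂ) +
    ((b (s, t) - b (t, s) : ℝ) : ℂ) * Complex.I
  map_add' b b' := by
    funext s t
    simp only [PiLp.add_apply, Pi.add_apply]
    push_cast
    ring
  map_smul' c b := by
    funext s t
    simp only [PiLp.smul_apply, Pi.smul_apply, smul_eq_mul, RingHom.id_apply, Complex.real_smul]
    push_cast
    ring

theorem hm_apply (b : EuclideanSpace ℝ (S × S)) (s t : S) :
    hm b s t = ((b (s, t) + b (t, s) : ℝ) : ℂ) + ((b (s, t) - b (t, s) : ℝ) : ℂ) * Complex.I :=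
  rfl

theorem hm_herm (b : EuclideanSpace ℝ (S × S)) : Herm (hm b) := by
  intro σ τ
  rw [hm_apply, hm_apply, map_add, map_mul, Complex.conj_ofReal, Complex.conj_ofReal,
    Complex.conj_I]
  push_cast
  ring

theorem sum_hm (b : EuclideanSpace ℝ (S × S)) :
    ∑ s, ∑ t, ‖hm b s t‖ ^ 2 = 4 * ‖b‖ ^ 2 := by
  have h1 : ∀ s t, ‖hm b s t‖ ^ 2 = 2 * (b (s, t) ^ 2 + b (t, s) ^ 2) := by
    intro s t
    rw [hm_apply, ← Complex.normSq_eq_norm_sq, Complex.normSq_add_mul_I]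
    ring
  simp only [h1]
  have h2 : ∑ s : S, ∑ t : S, b (t, s) ^ 2 = ∑ s : S, ∑ t : S, b (s, t) ^ 2 :=
    Finset.sum_comm
  have h3 : ‖b‖ ^ 2 = ∑ s : S, ∑ t : S, b (s, t) ^ 2 := by
    rw [EuclideanSpace.norm_sq_eq, Fintype.sum_prod_type]
    refine Finset.sum_congr rfl fun s _ => Finset.sum_congr rfl fun t _ => ?_
    rw [Real.norm_eq_abs, sq_abs]
  rw [h3]
  simp only [← Finset.mul_sum, Finset.sum_add_distrib]
  rw [h2]
  ring

theorem contr_of_hs (M : S → S → ℂ) (h : ∑ s, ∑ t, ‖M s t‖ ^ 2 ≤ 1) : Contr M := by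
  intro f
  have h1 : ∀ σ, ‖∑ τ, M σ τ * f τ‖ ^ 2 ≤ (∑ τ, ‖M σ τ‖ ^ 2) * nrm f := by
    intro σ
    have h2 : ‖∑ τ, M σ τ * f τ‖ ≤ ∑ τ, ‖M σ τ‖ * ‖f τ‖ := by
      refine (norm_sum_le _ _).trans (le_of_eq ?_)
      exact Finset.sum_congr rfl fun τ _ => norm_mul _ _
    have h3 := Finset.sum_mul_sq_le_sq_mul_sq Finset.univ (fun τ => ‖M σ τ‖) (fun τ => ‖f τ‖)
    exact (pow_le_pow_left₀ (norm_nonneg _) h2 2).trans h3
  have h0 : 0 ≤ nrm f := nrm_nonneg f
  calc nrm (fun σ => ∑ τ, M σ τ * f τ) = ∑ σ, ‖∑ τ, M σ τ * f τ‖ ^ 2 := rfl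
    _ ≤ ∑ σ, (∑ τ, ‖M σ τ‖ ^ 2) * nrm f := Finset.sum_le_sum fun σ _ => h1 σ
    _ = (∑ s, ∑ t, ‖M s t‖ ^ 2) * nrm f := by rw [Finset.sum_mul]
    _ ≤ 1 * nrm f := mul_le_mul_of_nonneg_right h h0
    _ = nrm f := one_mul _

theorem contr_half (b : EuclideanSpace ℝ (S × S)) (hb : ‖b‖ = 1) :
    Contr ((1 / 2 : ℂ) • (hm b : S → S → ℂ)) := by
  refine contr_of_hs _ ?_
  have h1 : ∀ s t, ‖((1 / 2 : ℂ) • (hm b : S → S → ℂ)) s t‖ ^ 2 = ‖hm b s t‖ ^ 2 / 4 := by
    intro s t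
    simp only [Pi.smul_apply, smul_eq_mul]
    rw [norm_mul, mul_pow]
    norm_num
    ring
  simp only [h1, ← Finset.sum_div]
  rw [sum_hm, hb]
  norm_num

theorem entry_le {B : S → S → ℂ} (hB : Contr B) (s t : S) : ‖B s t‖ ≤ 1 := by
  have h1 := hB (Pi.single t 1)
  have h2 : nrm (Pi.single t (1 : ℂ) : S → ℂ) = 1 := by
    unfold nrm
    rw [Finset.sum_eq_single t]
    · simp
    · intro x _ hx
      simp [Pi.single_eq_of_ne hx]
    · simp
  have h3 : (fun σ => ∑ τ, B σ τ * (Pi.single t (1 : ℂ) : S → ℂ) τ) = fun σ => B σ t := by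
    funext σ
    rw [Finset.sum_eq_single t]
    · simp
    · intro x _ hx
      simp [Pi.single_eq_of_ne hx]
    · simp
  rw [h2, h3] at h1
  have h4 : ‖B s t‖ ^ 2 ≤ 1 := by
    refine le_trans ?_ h1
    unfold nrm
    exact Finset.single_le_sum (f := fun σ => ‖B σ t‖ ^ 2) (fun _ _ => by positivity)
      (Finset.mem_univ s)
  nlinarith [norm_nonneg (B s t)]

/-- the vector of a Hermitian matrix -/
theorem exists_hm (B : S → S → ℂ) (hB : Herm B) (h1 : ∀ s t, ‖B s t‖ ≤ 1) :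
    ∃ b : EuclideanSpace ℝ (S × S), hm b = B ∧ ‖b‖ ≤ Fintype.card S := by
  refine ⟨WithLp.toLp 2 fun x => ((B x.1 x.2).re + (B x.1 x.2).im) / 2, ?_, ?_⟩
  · funext s t
    rw [hm_apply]
    show ((((B s t).re + (B s t).im) / 2 + ((B t s).re + (B t s).im) / 2 : ℝ) : ℂ) +
      ((((B s t).re + (B s t).im) / 2 - ((B t s).re + (B t s).im) / 2 : ℝ) : ℂ) * Complex.I = _
    rw [hB s t, Complex.conj_re, Complex.conj_im]
    have e1 : ((B s t).re + (B s t).im) / 2 + ((B s t).re + -(B s t).im) / 2 = (B s t).re := by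
      ring
    have e2 : ((B s t).re + (B s t).im) / 2 - ((B s t).re + -(B s t).im) / 2 = (B s t).im := by
      ring
    rw [e1, e2]
    exact Complex.re_add_im _
  · have h2 : ‖(WithLp.toLp 2 fun x : S × S => ((B x.1 x.2).re + (B x.1 x.2).im) / 2 :
        EuclideanSpace ℝ (S × S))‖ ^ 2 ≤ (Fintype.card S : ℝ) ^ 2 := by
      rw [EuclideanSpace.norm_sq_eq]
      calc _ ≤ ∑ _x : S × S, (1 : ℝ) := by
            refine Finset.sum_le_sum fun x _ => ?_
            show ‖((B x.1 x.2).re + (B x.1 x.2).im) / 2‖ ^ 2 ≤ 1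
            have e1 := (Complex.abs_re_le_norm (B x.1 x.2)).trans (h1 x.1 x.2)
            have e2 := (Complex.abs_im_le_norm (B x.1 x.2)).trans (h1 x.1 x.2)
            rw [abs_le] at e1 e2
            rw [Real.norm_eq_abs, sq_abs]
            nlinarith
        _ = _ := by
            rw [Finset.sum_const, Finset.card_univ, Fintype.card_prod]
            simp [sq]
    exact (pow_le_pow_iff_left₀ (norm_nonneg _) (Nat.cast_nonneg _) (by norm_num)).1 h2

theorem herm_bound (Λ : (S → S → ℂ) →ₗ[ℂ] ℂ) (hr : ∀ B, Herm B → (Λ B).im = 0) (κ : ℝ)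
    (hκ : 0 ≤ κ) (h : ∀ b : EuclideanSpace ℝ (S × S), |(Λ (hm b)).re| ≤ κ * ‖b‖)
    (B : S → S → ℂ) (hB : Herm B) (h1 : ∀ s t, ‖B s t‖ ≤ 1) :
    ‖Λ B‖ ≤ κ * Fintype.card S := by
  obtain ⟨b, hb, hbn⟩ := exists_hm B hB h1
  have h2 := h b
  rw [hb] at h2
  have h3 : ‖Λ B‖ = |(Λ B).re| := by
    have e : Λ B = (((Λ B).re : ℝ) : ℂ) := by
      apply Complex.ext
      · simp
      · simp [hr B hB]
    rw [e, Complex.norm_real, Real.norm_eq_abs, Complex.ofReal_re]
  rw [h3]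
  exact h2.trans (mul_le_mul_of_nonneg_left hbn hκ)

theorem contr_bound (Λ : (S → S → ℂ) →ₗ[ℂ] ℂ) (hr : ∀ B, Herm B → (Λ B).im = 0) (κ : ℝ)
    (hκ : 0 ≤ κ) (h : ∀ b : EuclideanSpace ℝ (S × S), |(Λ (hm b)).re| ≤ κ * ‖b‖)
    (B : S → S → ℂ) (hB : Contr B) : ‖Λ B‖ ≤ 2 * Fintype.card S * κ := by
  set B1 : S → S → ℂ := fun s t => (B s t + conj (B t s)) / 2 with hB1
  set B2 : S → S → ℂ := fun s t => (B s t - conj (B t s)) / 2 * (-Complex.I) with hB2
  have e : B = B1 + Complex.I • B2 := by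
    funext s t
    simp only [hB1, hB2, Pi.add_apply, Pi.smul_apply, smul_eq_mul]
    have hI : Complex.I * Complex.I = -1 := Complex.I_mul_I
    linear_combination ((B s t - conj (B t s)) / 2) * hI
  have herm1 : Herm B1 := by
    intro σ τ
    simp only [hB1, map_div₀, map_add, Complex.conj_conj]
    have : conj (2 : ℂ) = 2 := Complex.conj_ofNat 2
    rw [this]
    ring
  have herm2 : Herm B2 := by
    intro σ τ
    simp only [hB2, map_div₀, map_sub, map_mul, map_neg, Complex.conj_conj, Complex.conj_I]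
    have : conj (2 : ℂ) = 2 := Complex.conj_ofNat 2
    rw [this]
    ring
  have n1 : ∀ s t, ‖B1 s t‖ ≤ 1 := by
    intro s t
    simp only [hB1]
    rw [norm_div]
    have h3 := norm_add_le (B s t) (conj (B t s))
    rw [Complex.norm_conj] at h3
    have h4 := entry_le hB s t
    have h5 := entry_le hB t s
    have h6 : ‖(2 : ℂ)‖ = 2 := by simp
    rw [h6]
    linarith
  have n2 : ∀ s t, ‖B2 s t‖ ≤ 1 := by
    intro s t
    simp only [hB2]
    rw [norm_mul, norm_neg, Complex.norm_I, mul_one, norm_div]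
    have h3 := norm_sub_le (B s t) (conj (B t s))
    rw [Complex.norm_conj] at h3
    have h4 := entry_le hB s t
    have h5 := entry_le hB t s
    have h6 : ‖(2 : ℂ)‖ = 2 := by simp
    rw [h6]
    linarith
  have b1 := herm_bound Λ hr κ hκ h B1 herm1 n1
  have b2 := herm_bound Λ hr κ hκ h B2 herm2 n2
  rw [e, map_add, map_smul]
  calc ‖Λ B1 + Complex.I • Λ B2‖ ≤ ‖Λ B1‖ + ‖Complex.I • Λ B2‖ := norm_add_le _ _
    _ = ‖Λ B1‖ + ‖Λ B2‖ := by rw [norm_smul, Complex.norm_I, one_mul]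
    _ ≤ κ * Fintype.card S + κ * Fintype.card S := add_le_add b1 b2
    _ = _ := by ring

/-- the representing vector -/
def rep (Λ : (S → S → ℂ) →ₗ[ℂ] ℂ) : EuclideanSpace ℝ (S × S) :=
  (InnerProductSpace.toDual ℝ (EuclideanSpace ℝ (S × S))).symm
    (LinearMap.toContinuousLinearMap
      (Complex.reLm ∘ₗ (Λ.restrictScalars ℝ) ∘ₗ (hm : EuclideanSpace ℝ (S × S) →ₗ[ℝ] _)))

theorem rep_inner (Λ : (S → S → ℂ) →ₗ[ℂ] ℂ) (b : EuclideanSpace ℝ (S × S)) :
    ⟪b, rep Λ⟫_ℝ = (Λ (hm b)).re := by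
  rw [real_inner_comm]
  unfold rep
  rw [InnerProductSpace.toDual_symm_apply]
  rfl

end hm

theorem card_pair (d r : ℕ) : Fintype.card (BConf d r × BConf d r) + 1 = nT d r := by
  unfold nT
  rw [Fintype.card_prod]
  simp only [BConf, Fintype.card_pi, Finset.prod_const, Finset.card_univ, Fintype.card_prod,
    Fintype.card_fin, sq]

theorem mix (hH : StmHull) : StmMix := by
  intro d r _ _
  refine ⟨6 * (Fintype.card (BConf d r) : ℝ) + 1, by positivity, ?_⟩
  intro m f L _ _ hrm hrL Ψ _ η hη hR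
  have hm0 : (m : ℂ) ≠ 0 := Nat.cast_ne_zero.2 (NeZero.ne m)
  have hm0' : (0 : ℝ) < (m : ℝ) ^ 2 := by
    have : (0 : ℝ) < m := by exact_mod_cast Nat.pos_of_ne_zero (NeZero.ne m)
    positivity
  -- the functional of a vector on the `m`-torus
  set F : (Conf d m → ℂ) → ((BConf d r → BConf d r → ℂ) →ₗ[ℂ] ℂ) :=
    fun φ => ((m : ℂ) ^ 2)⁻¹ • enL φ with hF
  have hFap : ∀ φ B, F φ B = enS φ B / (m : ℂ) ^ 2 := by
    intro φ B
    simp only [hF]
    rw [LinearMap.smul_apply, enL_apply, smul_eq_mul]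
    ring
  have hFre : ∀ φ B, (F φ B).re = (enS φ B).re / (m : ℝ) ^ 2 := by
    intro φ B
    rw [hFap]
    have : ((m : ℂ) ^ 2) = (((m : ℝ) ^ 2 : ℝ) : ℂ) := by push_cast; rfl
    rw [this, Complex.div_ofReal_re]
  set S : Set (EuclideanSpace ℝ (BConf d r × BConf d r)) :=
    {y | ∃ C : Site m → Tensor d f, nrm (pepsN C) = 1 ∧ y = rep (F (pepsN C))} with hS
  have hSne : S.Nonempty := by
    obtain ⟨C, hC, -⟩ := hR 0 (by intro σ τ; simp) (by intro f; simp [nrm]; positivity)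
    exact ⟨_, C, hC, rfl⟩
  have hsep : ∀ b : EuclideanSpace ℝ (BConf d r × BConf d r), ‖b‖ = 1 →
      ∃ s ∈ S, ⟪b, s⟫_ℝ ≤ ⟪b, rep (exL Ψ 0)⟫_ℝ + 2 * η := by
    intro b hb
    have hherm : Herm ((1 / 2 : ℂ) • (hm b : BConf d r → BConf d r → ℂ)) := by
      intro σ τ
      simp only [Pi.smul_apply, smul_eq_mul, map_mul]
      have h2 : conj (1 / 2 : ℂ) = 1 / 2 := by rw [map_div₀, map_one, Complex.conj_ofNat]
      rw [hm_herm b σ τ, h2]
    obtain ⟨C, hC, hle⟩ := hR _ hherm (contr_half b hb)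
    refine ⟨_, ⟨C, hC, rfl⟩, ?_⟩
    rw [rep_inner, rep_inner, hFre]
    have e1 : enS (pepsN C) ((1 / 2 : ℂ) • (hm b : BConf d r → BConf d r → ℂ)) =
        (1 / 2 : ℂ) * enS (pepsN C) (hm b) := by
      rw [← enL_apply, ← enL_apply, map_smul, smul_eq_mul]
    have e2 : expec Ψ 0 ((1 / 2 : ℂ) • (hm b : BConf d r → BConf d r → ℂ)) =
        (1 / 2 : ℂ) * expec Ψ 0 (hm b) := by
      have := map_smul (exL (r := r) Ψ 0) (1 / 2 : ℂ) (hm b : BConf d r → BConf d r → ℂ)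
      exact this
    have e3 : ∀ z : ℂ, ((1 / 2 : ℂ) * z).re = z.re / 2 := by
      intro z
      have : (1 / 2 : ℂ) = (((1 / 2 : ℝ)) : ℂ) := by push_cast; rfl
      rw [this, Complex.re_ofReal_mul]
      ring
    beta_reduce at hle
    rw [e1, e2, e3, e3] at hle
    have e4 : (exL Ψ 0 (hm b : BConf d r → BConf d r → ℂ)).re = (expec Ψ 0 (hm b)).re := rfl
    rw [e4, div_le_iff₀ hm0']
    linarith
  obtain ⟨p, s, hp0, hp1, hsS, hnorm⟩ := hH _ S (rep (exL Ψ 0)) (2 * η) (3 * η) hSne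
    (by linarith) (by linarith) hsep
  choose C hC1 hC2 using hsS
  rw [← card_pair d r]
  refine ⟨p, C, hp0, hp1, hC1, ?_⟩
  intro B hB
  set Λ : (BConf d r → BConf d r → ℂ) →ₗ[ℂ] ℂ :=
    (∑ i, (p i : ℂ) • F (pepsN (C i))) - exL Ψ 0 with hΛ
  have hΛap : ∀ B, Λ B = (∑ i, (p i : ℂ) * F (pepsN (C i)) B) - expec Ψ 0 B := by
    intro B
    rw [hΛ, LinearMap.sub_apply, LinearMap.sum_apply]
    rfl
  have hreal : ∀ B, Herm B → (Λ B).im = 0 := by
    intro B hB
    rw [hΛap, Complex.sub_im, expec_real hrL Ψ 0 B hB, sub_zero, Complex.im_sum]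
    refine Finset.sum_eq_zero fun i _ => ?_
    rw [Complex.im_ofReal_mul, hFap]
    have : ((m : ℂ) ^ 2) = (((m : ℝ) ^ 2 : ℝ) : ℂ) := by push_cast; rfl
    rw [this, Complex.div_ofReal_im, enS_real hrm _ B hB]
    simp
  have hbd : ∀ b : EuclideanSpace ℝ (BConf d r × BConf d r),
      |(Λ (hm b)).re| ≤ (3 * η) * ‖b‖ := by
    intro b
    have h1 : (Λ (hm b)).re = ⟪b, (∑ i, p i • s i) - rep (exL Ψ 0)⟫_ℝ := by
      rw [inner_sub_right, inner_sum, rep_inner, hΛap, Complex.sub_re, Complex.re_sum]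
      congr 1
      refine Finset.sum_congr rfl fun i _ => ?_
      rw [real_inner_smul_right, hC2 i, rep_inner, Complex.re_ofReal_mul]
    rw [h1]
    refine (abs_real_inner_le_norm _ _).trans ?_
    rw [mul_comm]
    exact mul_le_mul_of_nonneg_right hnorm (norm_nonneg _)
  have hfin := contr_bound Λ hreal (3 * η) (by linarith) hbd B hB
  have e : (∑ i, (p i : ℂ) * enS (pepsN (C i)) B) / ((m : ℂ) ^ 2) - expec Ψ 0 B = Λ B := by
    rw [hΛap, Finset.sum_div]
    congr 1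
    refine Finset.sum_congr rfl fun i _ => ?_
    rw [hFap]
    ring
  rw [e]
  refine hfin.trans ?_
  nlinarith [hη]

end Pool.Agent.N645.TP
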