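import Pool.Agent.N658.TP.Stm2

/-! # TP/Slice: slices -/

open scoped BigOperators ComplexConjugate Classical InnerProductSpace Matrix ComplexOrder
open scoped Matrix.Norms.L2Operator

noncomputable section

namespace Pool.Agent.N645.TP

open Pool.Agent.N658.TP Pool.Agent.TH235 Pool.Agent.TH235.PP Pool.Agent.TH235.PQ

theorem slice (h1 : StmSliceNorm) (h2 : StmNetAdj) : StmSlice := by
  intro d R' J hd
  obtain ⟨J', hJ'⟩ : ∃ J' : ℝ, J' = max J 1 := ⟨_, rfl⟩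
  have hJ1 : 1 ≤ J' := by rw [hJ']; exact le_max_right _ _
  have hJJ : J ≤ J' := by rw [hJ']; exact le_max_left _ _
  have hJ0 : 0 < J' := by linarith
  obtain ⟨K, hK⟩ : ∃ K : ℕ, K = (R' + 1) ^ 4 := ⟨_, rfl⟩
  have hK1 : 1 ≤ K := by rw [hK]; exact Nat.one_le_pow _ _ (Nat.succ_pos _)
  have hK1' : (1 : ℝ) ≤ K := by exact_mod_cast hK1
  have hK0 : (0 : ℝ) < K := by linarith
  obtain ⟨c1, hc1⟩ : ∃ c1 : ℝ, c1 = 100 * ((K : ℝ) + 1) ^ 2 := ⟨_, rfl⟩
  obtain ⟨c2, hc2⟩ : ∃ c2 : ℝ, c2 = 10 * (K : ℝ) * ((K : ℝ) + 1) ^ 2 := ⟨_, rfl⟩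
  have hc10 : 0 < c1 := by rw [hc1]; positivity
  have hc20 : 0 < c2 := by rw [hc2]; positivity
  obtain ⟨τ, hτ⟩ : ∃ τ : ℝ, τ = 1 / (16 * K * J') := ⟨_, rfl⟩
  have hτ0 : 0 < τ := by rw [hτ]; positivity
  obtain ⟨B, hB⟩ : ∃ B : ℝ, B = 2 * τ * J' := ⟨_, rfl⟩
  have hB0 : 0 ≤ B := by rw [hB]; positivity
  have hB1 : B ≤ 1 := by
    have h3 : B = 1 / (8 * K) := by
      rw [hB, hτ]
      field_simp
      norm_num
    rw [h3, div_le_one (by positivity)]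
    linarith
  obtain ⟨C', hC'⟩ : ∃ C' : ℝ, C' = 2 * (2 * (c2 * (c1 * 2 + 4)) + 4) + 4 * c2 := ⟨_, rfl⟩
  have hC'0 : 0 < C' := by rw [hC']; positivity
  refine ⟨τ, hτ0, 4 * ((Fintype.card (Lm d (R' + 1)) : ℕ) + 1) * C' *
    ((2 * R' + 1 : ℕ) : ℝ) ^ 2, by positivity, ?_⟩
  intro L _ hL hRL
  have hL2 : (2 : ℝ) ≤ L := by exact_mod_cast hL
  have hlam0 : 1 / 2 ≤ Real.log L := by
    have h3 : Real.log 2 ≤ Real.log L := Real.log_le_log (by norm_num) hL2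
    have := Real.log_two_gt_d9
    linarith
  have hNexp : ((L ^ 2 : ℕ) : ℝ) = Real.exp (2 * Real.log L) := by
    rw [two_mul, Real.exp_add, Real.exp_log (by linarith)]; push_cast; ring
  have hN1 : (1 : ℝ) ≤ ((L ^ 2 : ℕ) : ℝ) := by
    rw [hNexp]; exact Real.one_le_exp (by linarith)
  obtain ⟨q, hM1, hM2, hM3⟩ := par_q B ((L ^ 2 : ℕ) : ℝ) 2 hB0 hN1
  have hM0 : (0 : ℝ) < tm q := by linarith
  obtain ⟨r, hr1, hr2⟩ := par_r c1 c2 (1 + B) (2 * Real.log L + 4) hc20 (by positivity)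
  obtain ⟨y0, hy0⟩ : ∃ y0 : ℝ, y0 = 2 * (τ / tm q) * J' := ⟨_, rfl⟩
  have hy00 : 0 ≤ y0 := by rw [hy0]; positivity
  have hMy : (tm q : ℝ) * y0 = B := by rw [hy0, hB]; field_simp
  have hNy : ((L ^ 2 : ℕ) : ℝ) * y0 ≤ 1 / 80 := by
    have : ((L ^ 2 : ℕ) : ℝ) * y0 = ((L ^ 2 : ℕ) : ℝ) * B / tm q := by
      rw [hy0, hB]; ring
    rw [this]; exact hM2
  have hy80 : y0 ≤ 1 / 80 := by nlinarith
  have hMN : (tm q : ℝ) * (((L ^ 2 : ℕ) : ℝ) * y0) ^ 2 ≤ 1 / 64 := by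
    have : (tm q : ℝ) * (((L ^ 2 : ℕ) : ℝ) * y0) ^ 2 = (((L ^ 2 : ℕ) : ℝ) * B) ^ 2 / tm q := by
      rw [hy0, hB]; field_simp
    rw [this]
    have := exp_two
    linarith
  have hrr : ((L ^ 2 : ℕ) : ℝ) * Real.exp (100 * (K + 1) ^ 2 * (1 + tm q * y0) -
      r / (10 * K * (K + 1) ^ 2)) ≤ 1 / 24 := by
    refine le_trans ?_ exp_four
    rw [hNexp, ← Real.exp_add, hMy]
    apply Real.exp_le_exp.2
    rw [hc1, hc2] at hr1
    linarith
  have hcard := card_bdK count (d := d) (R' := R') 1 q r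
  rw [Nat.cast_one, one_mul] at hcard
  refine ⟨Fintype.card (Fin (2 * R' + 1) × Fin (2 * R' + 1) → LabT d (R' + 1) q r), ?_, ?_⟩
  · have e1 : Fintype.card (Fin 1 × (Fin (2 * R' + 1) × Fin (2 * R' + 1) →
        LabT d (R' + 1) q r)) =
        Fintype.card (Fin (2 * R' + 1) × Fin (2 * R' + 1) → LabT d (R' + 1) q r) := by
      rw [Fintype.card_prod, Fintype.card_fin, one_mul]
    rw [e1] at hcard
    refine hcard.trans (Real.exp_le_exp.2 ?_)
    have h3 : (2 : ℝ) * r + 2 ≤ C' * Real.log L := by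
      have h4 : c2 * (c1 * (1 + B) + (2 * Real.log L + 4)) ≤
          c2 * (c1 * 2 + 4) + 2 * c2 * Real.log L := by
        have h5 : c1 * (1 + B) ≤ c1 * 2 := mul_le_mul_of_nonneg_left (by linarith) hc10.le
        have h6 := mul_le_mul_of_nonneg_left
          (show c1 * (1 + B) + (2 * Real.log L + 4) ≤ c1 * 2 + (2 * Real.log L + 4) by linarith)
          hc20.le
        linarith
      have h7 : 0 ≤ 2 * (c2 * (c1 * 2 + 4)) + 4 := by positivity
      have h8 : 2 * (c2 * (c1 * 2 + 4)) + 4 ≤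
          2 * (2 * (c2 * (c1 * 2 + 4)) + 4) * Real.log L := by nlinarith
      rw [hC']
      nlinarith
    have h5 := mul_le_mul_of_nonneg_left h3
      (by positivity : (0 : ℝ) ≤ 4 * ((Fintype.card (Lm d (R' + 1)) : ℕ) + 1))
    have h6 := mul_le_mul_of_nonneg_right h5 (by positivity : (0 : ℝ) ≤ ((2 * R' + 1 : ℕ) : ℝ) ^ 2)
    refine h6.trans (le_of_eq ?_)
    ring
  intro h hh hnJ
  haveI : Nonempty (Fin d) := ⟨⟨0, by omega⟩⟩
  obtain ⟨e⟩ : Nonempty (Fin (L ^ 2) ≃ Site L) := by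
    rw [← Fintype.card_eq, Fintype.card_fin, card_site]
  have hsum : ∑ b, term h (e b) = ham h L := by
    unfold ham
    exact e.sum_comp (fun u => term h u)
  have hcomm : ∀ b b', ¬ adjR R' e b b' →
      term h (e b) * term h (e b') = term h (e b') * term h (e b) := by
    intro b b' hb
    have := y_comm (1 : ℂ) h e b b' hb
    simpa only [one_smul] using this
  have hn := h1 (Site L → Fin d) (L ^ 2) (adjR R' e) K (adjR_symm e) (adjR_irr e) hK1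
    (fun b => by rw [hK]; exact adjR_card e b) (fun b => term h (e b))
    (by rw [hsum]; exact ham_herm h hh) hcomm J' hJ0
    (fun b => (norm_term h (e b)).trans (hnJ.trans hJJ)) τ hτ0 (le_of_eq hτ) q r y0 hy0 hy80
    (by linarith) (by
      have : 2 * (tm q : ℝ) * (((L ^ 2 : ℕ) : ℝ) * y0) ^ 2 =
        2 * (tm q * (((L ^ 2 : ℕ) : ℝ) * y0) ^ 2) := by ring
      rw [this]; linarith) (by linarith)
  rw [hsum] at hn
  refine ⟨KA (adjR R' e) q (fun b => (-((τ / tm q : ℝ) : ℂ)) • term h (e b)) r, ?_, ?_⟩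
  · refine hn.trans ?_
    linarith
  · rintro D ψ ⟨A, rfl⟩
    have e2 : Fintype.card (Fin D × (Fin (2 * R' + 1) × Fin (2 * R' + 1) →
        LabT d (R' + 1) q r)) = D *
        Fintype.card (Fin (2 * R' + 1) × Fin (2 * R' + 1) → LabT d (R' + 1) q r) := by
      rw [Fintype.card_prod, Fintype.card_fin]
    refine ⟨?_, ?_⟩
    · obtain ⟨A', hA'⟩ := peps_KA reg hRL A (-((τ / tm q : ℝ) : ℂ)) h e q r
      rw [← e2]
      have h5 : IsPEPS _ (contract A') := isPEPS_contract A'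
      rw [← hA'] at h5
      exact h5
    · obtain ⟨A', hA'⟩ := h2 d R' L hRL (Fin D) A (-((τ / tm q : ℝ) : ℂ)) h (L ^ 2) e q r
      rw [← e2]
      have h5 : IsPEPS _ (contract A') := isPEPS_contract A'
      rw [← hA'] at h5
      exact h5

end Pool.Agent.N645.TP
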